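import Pool.Agent.R547.RM.Main

set_option autoImplicit false

/-!
# The number of regular models is at most `2 ^ |U|`

For every finite ground normal logic program `P`, tight or not, and every set `U` of atoms which
meets every even cycle of the atom dependency graph, the program has at most `2 ^ |U|` regular
models, since any two different regular models are in conflict at an element of `U`.
-/

namespace Pool.Agent.Results.MP_9cfc50_lc.RegularModelsLe

open Pool.Agent.R547.RM

/-- If `U` meets every even cycle of the atom dependency graph of the finite ground normal program
`P`, then `P` has at most `2 ^ |U|` regular models. Moreover any two different regular models take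
the values true and false (in some order) at some element of `U`. -/
theorem result (α : Type) [Finite α] (P : Program α) (U : Finset α) (hU : EvenFVS P U) :
    {I : α → TV | Regular P I}.Finite ∧ {I : α → TV | Regular P I}.ncard ≤ 2 ^ U.card ∧
    ∀ I J : α → TV, Regular P I → Regular P J → I ≠ J →
      ∃ u ∈ U, (I u = 2 ∧ J u = 0) ∨ (I u = 0 ∧ J u = 2) :=
  ⟨Set.toFinite _, card_regular_le hU, fun _ _ hI hJ hne => regular_conflict hU hI hJ hne⟩

end Pool.Agent.Results.MP_9cfc50_lc.RegularModelsLe
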